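import Pool.Agent.W213.MG.Stm

/-! Project MG, part RCH (project helper213, MP_c3e474_lc): the reachable sets of the automaton are exactly
the good subsets of `{0,..,n-1}`. -/

set_option autoImplicit false

namespace Pool.Agent.W427.MG

open Finset
open Pool.Agent.W213.MG (A B Reach Good RCH)

/-- `Good` with the unique witness made explicit -/
def Gd (n : ℕ) (f : ℕ → Bool) (S : Finset ℕ) : Prop :=
  0 ∈ S → n - 1 ∉ S → ∃ k, k + 1 < n ∧ (∀ i ≤ k, i ∈ S) ∧ k + 1 ∉ S ∧ (S = range (k+1) ∨ ∃ x ∈ S, k + 2 ≤ x ∧ f (x - k - 1))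

lemma good_iff {n : ℕ} (hn : 3 ≤ n) (f : ℕ → Bool) (S : Finset ℕ) : Good n f S ↔ Gd n f S := by
  constructor
  · rintro (h | h | ⟨k, h1, h2, h3⟩) h0 hn1
    · exact absurd h0 h
    · exact absurd h hn1
    · refine ⟨k, ?_, h1, h2, ?_⟩
      · by_contra hcon
        exact hn1 (h1 _ (by omega))
      · rcases h3 with h3 | h3
        · left
          ext x
          rw [mem_range]
          exact ⟨fun hx => Nat.lt_succ_of_le (h3 x hx), fun hx => h1 x (by omega)⟩
        · right; exact h3
  · intro h
    by_cases h0 : 0 ∈ S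
    · by_cases h1 : n - 1 ∈ S
      · exact Or.inr (Or.inl h1)
      · obtain ⟨k, _, h2, h3, h4⟩ := h h0 h1
        refine Or.inr (Or.inr ⟨k, h2, h3, ?_⟩)
        rcases h4 with h4 | h4
        · left
          intro x hx
          rw [h4, mem_range] at hx
          omega
        · right; exact h4
    · exact Or.inl h0

lemma mem_A {n : ℕ} {S : Finset ℕ} {x : ℕ} : x ∈ A n S ↔ x < n ∧ 1 ≤ x ∧ x - 1 ∈ S := by
  rw [Pool.Agent.W213.MG.mem_A]
  constructor
  · rintro ⟨h1, i, hi, rfl⟩
    exact ⟨h1, by omega, by simpa using hi⟩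
  · rintro ⟨h1, h2, h3⟩
    exact ⟨h1, x - 1, h3, by omega⟩

lemma mem_B' {n : ℕ} (hn : 3 ≤ n) {f : ℕ → Bool} {S : Finset ℕ} (hS : S ⊆ range n) {x : ℕ} :
    x ∈ B n f S ↔ x < n ∧ ((x = 0 ∧ (0 ∈ S ∨ n-1 ∈ S ∨ ∃ i ∈ S, 1 ≤ i ∧ i+1 < n ∧ f i)) ∨ (1 ≤ x ∧ x-1 ∈ S) ∨ (x = n-1 ∧ n-1 ∈ S)) := by
  rw [Pool.Agent.W213.MG.mem_B]
  constructor
  · rintro (⟨h1, i, hi, rfl⟩ | ⟨h1, h2⟩ | ⟨h1, i, hi, h2⟩)
    · exact ⟨h1, Or.inr (Or.inl ⟨by omega, by simpa using hi⟩)⟩
    · exact ⟨by omega, Or.inr (Or.inr ⟨h1, h2⟩)⟩
    · refine ⟨by omega, Or.inl ⟨h1, ?_⟩⟩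
      have hin := mem_range.1 (hS hi)
      by_cases e0 : i = 0
      · left; rwa [e0] at hi
      · by_cases e1 : i = n - 1
        · right; left; rwa [e1] at hi
        · right; right
          rcases h2 with h2 | h2 | h2
          · exact absurd h2 e0
          · exact absurd h2 e1
          · exact ⟨i, hi, by omega, by omega, h2⟩
  · rintro ⟨h1, ⟨h2, h3⟩ | ⟨h2, h3⟩ | ⟨h2, h3⟩⟩
    · refine Or.inr (Or.inr ⟨h2, ?_⟩)
      rcases h3 with h3 | h3 | ⟨i, hi, _, _, hf⟩
      · exact ⟨0, h3, Or.inl rfl⟩
      · exact ⟨n-1, h3, Or.inr (Or.inl rfl)⟩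
      · exact ⟨i, hi, Or.inr (Or.inr hf)⟩
    · exact Or.inl ⟨h1, x - 1, h3, by omega⟩
    · exact Or.inr (Or.inl ⟨h2, h3⟩)

/-- the shifted down set -/
def dn (S : Finset ℕ) : Finset ℕ := (S.filter (1 ≤ ·)).image (· - 1)
lemma mem_dn {S : Finset ℕ} {x : ℕ} : x ∈ dn S ↔ x + 1 ∈ S := by
  simp only [dn, mem_image, mem_filter]
  constructor
  · rintro ⟨a, ⟨h1, h2⟩, rfl⟩
    rwa [Nat.sub_add_cancel h2]
  · intro h
    exact ⟨x+1, ⟨h, by omega⟩, by omega⟩

lemma good_of_reach {n : ℕ} (hn : 3 ≤ n) {f : ℕ → Bool} {S : Finset ℕ} (h : Reach n f S) :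
    S ⊆ range n ∧ Gd n f S := by
  induction h with
  | start =>
    refine ⟨by intro x hx; simp at hx ⊢; omega, ?_⟩
    intro _ _
    refine ⟨0, by omega, ?_, by simp, Or.inl (by simp)⟩
    intro i hi
    simp; omega
  | a S hS ih =>
    refine ⟨by intro x hx; rw [mem_A] at hx; simp; omega, ?_⟩
    intro h0
    rw [mem_A] at h0
    omega
  | b S hS ih =>
    obtain ⟨ihr, ihg⟩ := ih
    refine ⟨by intro x hx; rw [mem_B' hn ihr] at hx; simp; omega, ?_⟩
    intro h0 hn1
    rw [mem_B' hn ihr] at h0 hn1
    push Not at hn1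
    have hn1' := hn1 (by omega)
    have e1 : n - 1 ∉ S := fun h => hn1'.2.2 rfl h
    have e2 : n - 2 ∉ S := by
      have := hn1'.2.1 (by omega)
      rwa [show n - 1 - 1 = n - 2 by omega] at this
    obtain ⟨_, h0 | h0 | h0⟩ := h0
    · obtain ⟨_, h0⟩ := h0
      by_cases hz : 0 ∈ S
      · obtain ⟨k, hk1, hk2, hk3, hk4⟩ := ihg hz e1
        have hk5 : k + 2 < n := by
          by_contra hcon
          have : k = n - 2 := by omega
          exact e2 (this ▸ hk2 k le_rfl)
        refine ⟨k + 1, by omega, ?_, ?_, ?_⟩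
        · intro i hi
          rw [mem_B' hn ihr]
          refine ⟨by omega, ?_⟩
          rcases Nat.eq_zero_or_pos i with hi0 | hi0
          · exact Or.inl ⟨hi0, Or.inl hz⟩
          · exact Or.inr (Or.inl ⟨hi0, hk2 _ (by omega)⟩)
        · rw [mem_B' hn ihr]
          rintro ⟨_, h | h | h⟩
          · omega
          · exact hk3 (by simpa using h.2)
          · exact e1 h.2
        · rcases hk4 with hk4 | ⟨x, hx, hx2, hx3⟩
          · left
            ext x
            rw [mem_B' hn ihr, mem_range]
            constructor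
            · rintro ⟨_, h | h | h⟩
              · omega
              · have := h.2
                rw [hk4, mem_range] at this
                omega
              · exact absurd h.2 e1
            · intro hx
              refine ⟨by omega, ?_⟩
              rcases Nat.eq_zero_or_pos x with hi0 | hi0
              · exact Or.inl ⟨hi0, Or.inl hz⟩
              · exact Or.inr (Or.inl ⟨hi0, hk2 _ (by omega)⟩)
          · right
            have hxn := mem_range.1 (ihr hx)
            have hxn1 : x ≠ n - 1 := fun h => e1 (h ▸ hx)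
            refine ⟨x + 1, ?_, by omega, ?_⟩
            · rw [mem_B' hn ihr]
              exact ⟨by omega, Or.inr (Or.inl ⟨by omega, by simpa using hx⟩)⟩
            · rwa [show x + 1 - (k + 1) - 1 = x - k - 1 by omega]
      · rcases h0 with h0 | h0 | ⟨i, hi, hi1, hi2, hi3⟩
        · exact absurd h0 hz
        · exact absurd h0 e1
        · have hin1 : i ≠ n - 1 := fun h => e1 (h ▸ hi)
          have hin2 : i ≠ n - 2 := fun h => e2 (h ▸ hi)
          refine ⟨0, by omega, ?_, ?_, Or.inr ⟨i + 1, ?_, by omega, ?_⟩⟩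
          · intro j hj
            obtain rfl : j = 0 := by omega
            rw [mem_B' hn ihr]
            exact ⟨by omega, Or.inl ⟨rfl, Or.inr (Or.inr ⟨i, hi, hi1, hi2, hi3⟩)⟩⟩
          · rw [mem_B' hn ihr]
            rintro ⟨_, h | h | h⟩
            · omega
            · exact hz (by simpa using h.2)
            · exact e1 h.2
          · rw [mem_B' hn ihr]
            exact ⟨by omega, Or.inr (Or.inl ⟨by omega, by simpa using hi⟩)⟩
          · simpa using hi3
    · omega
    · omega

lemma reach_range {n : ℕ} {f : ℕ → Bool} (hn : 3 ≤ n) : ∀ k, k + 1 ≤ n → Reach n f (range (k+1))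
  | 0, _ => by simpa using Reach.start
  | k + 1, hk => by
    have h := Reach.b _ (reach_range (f := f) hn k (by omega))
    have : B n f (range (k+1)) = range (k + 1 + 1) := by
      ext x
      simp only [mem_B' hn (show range (k+1) ⊆ range n from range_subset_range.2 (by omega)), mem_range]
      constructor
      · rintro ⟨_, h | h | h⟩
        · omega
        · omega
        · omega
      · intro hx
        refine ⟨by omega, ?_⟩
        rcases Nat.eq_zero_or_pos x with hi0 | hi0
        · exact Or.inl ⟨hi0, Or.inl (by omega)⟩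
        · exact Or.inr (Or.inl ⟨hi0, by omega⟩)
    rwa [this] at h

lemma reach_two {n : ℕ} {f : ℕ → Bool} (hn : 3 ≤ n) : ∀ j, j + 1 ≤ n → ∀ P : Finset ℕ, P ⊆ range j →
    Reach n f (P ∪ Ico j n)
  | 0, _, P, hP => by
    have h := reach_range (f := f) hn (n-1) (by omega)
    have e : P ∪ Ico 0 n = range (n - 1 + 1) := by
      have : P = ∅ := by simpa using hP
      subst this
      ext x; simp; omega
    rwa [e]
  | j + 1, hj, P, hP => by
    have hP' : dn P ⊆ range j := by
      intro x hx
      rw [mem_dn] at hx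
      have := mem_range.1 (hP hx)
      simp; omega
    have ih := reach_two (f := f) hn j (by omega) (dn P) hP'
    have hPn : ∀ x ∈ P, x < j + 1 := fun x hx => mem_range.1 (hP hx)
    have hsub : dn P ∪ Ico j n ⊆ range n := by
      intro x hx
      rw [mem_union, mem_Ico] at hx
      rw [mem_range]
      rcases hx with hx | hx
      · have := mem_range.1 (hP' hx)
        omega
      · omega
    by_cases h0 : 0 ∈ P
    · have h := Reach.b _ ih
      have e : B n f (dn P ∪ Ico j n) = P ∪ Ico (j+1) n := by
        ext x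
        simp only [mem_B' hn hsub, mem_union, mem_dn, mem_Ico]
        constructor
        · rintro ⟨hx, h | h | h⟩
          · left; rw [h.1]; exact h0
          · obtain ⟨h1, h2 | h2⟩ := h
            · left; rwa [Nat.sub_add_cancel h1] at h2
            · right; omega
          · right; omega
        · rintro (h | h)
          · have := hPn x h
            refine ⟨by omega, ?_⟩
            rcases Nat.eq_zero_or_pos x with hi0 | hi0
            · refine Or.inl ⟨hi0, Or.inr (Or.inl (Or.inr (by omega)))⟩
            · refine Or.inr (Or.inl ⟨hi0, Or.inl ?_⟩)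
              rwa [Nat.sub_add_cancel hi0]
          · exact ⟨h.2, Or.inr (Or.inl ⟨by omega, Or.inr (by omega)⟩)⟩
      rwa [e] at h
    · have h := Reach.a _ ih
      have e : A n (dn P ∪ Ico j n) = P ∪ Ico (j+1) n := by
        ext x
        simp only [mem_A, mem_union, mem_dn, mem_Ico]
        constructor
        · rintro ⟨hx, h1, h2 | h2⟩
          · left; rwa [Nat.sub_add_cancel h1] at h2
          · right; omega
        · rintro (h | h)
          · have := hPn x h
            have hx0 : 1 ≤ x := by
              rcases Nat.eq_zero_or_pos x with hi0 | hi0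
              · exact absurd (hi0 ▸ h) h0
              · exact hi0
            refine ⟨by omega, hx0, Or.inl ?_⟩
            rwa [Nat.sub_add_cancel hx0]
          · exact ⟨h.2, by omega, Or.inr (by omega)⟩
      rwa [e] at h

lemma reach_last {n : ℕ} {f : ℕ → Bool} (hn : 3 ≤ n) (S : Finset ℕ) (hS : S ⊆ range n)
    (h1 : n - 1 ∈ S) : Reach n f S := by
  have h := reach_two (f := f) hn (n-1) (by omega) (S.erase (n-1)) (by
    intro x hx
    have h2 := mem_range.1 (hS (mem_of_mem_erase hx))
    have h3 := ne_of_mem_erase hx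
    simp; omega)
  have e : S.erase (n-1) ∪ Ico (n-1) n = S := by
    ext x
    simp only [mem_union, mem_erase, mem_Ico]
    constructor
    · rintro (h | h)
      · exact h.2
      · have : x = n - 1 := by omega
        rwa [this]
    · intro h
      by_cases hx : x = n - 1
      · right; omega
      · left; exact ⟨hx, h⟩
  rwa [e] at h

lemma reach_nozero {n : ℕ} {f : ℕ → Bool} (hn : 3 ≤ n) (S : Finset ℕ) (hS : S ⊆ range n)
    (h0 : 0 ∉ S) : Reach n f S := by
  have h := Reach.a _ (reach_last (f := f) hn (insert (n-1) (dn S)) (by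
    intro x hx
    rw [mem_insert, mem_dn] at hx
    rcases hx with hx | hx
    · simp; omega
    · have := mem_range.1 (hS hx)
      simp; omega) (by simp))
  have e : A n (insert (n-1) (dn S)) = S := by
    ext x
    rw [mem_A, mem_insert, mem_dn]
    constructor
    · rintro ⟨h1, h2, h3 | h3⟩
      · omega
      · rwa [Nat.sub_add_cancel h2] at h3
    · intro h
      have := mem_range.1 (hS h)
      have hx0 : 1 ≤ x := by
        rcases Nat.eq_zero_or_pos x with hi0 | hi0
        · exact absurd (hi0 ▸ h) h0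
        · exact hi0
      refine ⟨this, hx0, Or.inr ?_⟩
      rwa [Nat.sub_add_cancel hx0]
  rwa [e] at h

lemma reach_good {n : ℕ} {f : ℕ → Bool} (hn : 3 ≤ n) : ∀ k, ∀ S : Finset ℕ, S ⊆ range n → 0 ∈ S →
    n - 1 ∉ S → (k + 1 < n ∧ (∀ i ≤ k, i ∈ S) ∧ k + 1 ∉ S ∧
      (S = range (k+1) ∨ ∃ x ∈ S, k + 2 ≤ x ∧ f (x - k - 1))) → Reach n f S := by
  intro k
  have hsubd : ∀ S : Finset ℕ, S ⊆ range n → dn S ⊆ range n := by
    intro S hS y hy
    rw [mem_dn] at hy
    have := mem_range.1 (hS hy)
    rw [mem_range]; omega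
  induction k with
  | zero =>
    intro S hS h0 h1 ⟨_, hk2, hk3, hk4⟩
    rcases hk4 with hk4 | ⟨x, hx, hx2, hx3⟩
    · rw [hk4]; exact reach_range hn 0 (by omega)
    · have hd := reach_nozero (f := f) hn (dn S) (by
        intro y hy
        rw [mem_dn] at hy
        have := mem_range.1 (hS hy)
        simp; omega) (by rw [mem_dn]; exact hk3)
      have h := Reach.b _ hd
      have hsub := hsubd S hS
      have e : B n f (dn S) = S := by
        ext y
        simp only [mem_B' hn hsub, mem_dn]
        constructor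
        · rintro ⟨hy, h | h | h⟩
          · rw [h.1]; exact h0
          · obtain ⟨h1, h2⟩ := h
            rwa [Nat.sub_add_cancel h1] at h2
          · have := mem_range.1 (hS h.2)
            omega
        · intro h
          have hyn := mem_range.1 (hS h)
          refine ⟨hyn, ?_⟩
          rcases Nat.eq_zero_or_pos y with hi0 | hi0
          · have hxn := mem_range.1 (hS hx)
            have hx1 : x ≠ n - 1 := fun h => h1 (h ▸ hx)
            refine Or.inl ⟨hi0, Or.inr (Or.inr ⟨x - 1, ?_, by omega, by omega, ?_⟩)⟩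
            · rwa [Nat.sub_add_cancel (by omega)]
            · simpa using hx3
          · refine Or.inr (Or.inl ⟨hi0, ?_⟩)
            rwa [Nat.sub_add_cancel hi0]
      rwa [e] at h
  | succ k ih =>
    intro S hS h0 h1 ⟨hk1, hk2, hk3, hk4⟩
    have hd := ih (dn S) (by
        intro y hy
        rw [mem_dn] at hy
        have := mem_range.1 (hS hy)
        simp; omega) (by rw [mem_dn]; exact hk2 _ (by omega)) (by
        rw [mem_dn]
        intro h
        have := mem_range.1 (hS h)
        omega) (by
        refine ⟨by omega, ?_, ?_, ?_⟩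
        · intro i hi
          rw [mem_dn]
          exact hk2 _ (by omega)
        · rw [mem_dn]; exact hk3
        · rcases hk4 with hk4 | ⟨x, hx, hx2, hx3⟩
          · left
            ext y
            rw [mem_dn, hk4, mem_range, mem_range]
            omega
          · right
            refine ⟨x - 1, ?_, by omega, ?_⟩
            · rw [mem_dn, Nat.sub_add_cancel (by omega)]; exact hx
            · rwa [show x - 1 - k - 1 = x - (k + 1) - 1 by omega])
    have h := Reach.b _ hd
    have hsub := hsubd S hS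
    have e : B n f (dn S) = S := by
      ext y
      simp only [mem_B' hn hsub, mem_dn]
      constructor
      · rintro ⟨hy, h | h | h⟩
        · rw [h.1]; exact h0
        · obtain ⟨h1, h2⟩ := h
          rwa [Nat.sub_add_cancel h1] at h2
        · have := mem_range.1 (hS h.2)
          omega
      · intro h
        have hyn := mem_range.1 (hS h)
        refine ⟨hyn, ?_⟩
        rcases Nat.eq_zero_or_pos y with hi0 | hi0
        · exact Or.inl ⟨hi0, Or.inl (hk2 _ (by omega))⟩
        · refine Or.inr (Or.inl ⟨hi0, ?_⟩)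
          rwa [Nat.sub_add_cancel hi0]
    rwa [e] at h

theorem rch : RCH := by
  intro n f hn S
  rw [good_iff hn]
  refine ⟨good_of_reach hn, ?_⟩
  rintro ⟨hS, hG⟩
  by_cases h0 : 0 ∈ S
  · by_cases h1 : n - 1 ∈ S
    · exact reach_last hn S hS h1
    · obtain ⟨k, hk⟩ := hG h0 h1
      exact reach_good hn k S hS h0 h1 hk
  · exact reach_nozero hn S hS h0

end Pool.Agent.W427.MG
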